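import Mathlib
import Pool.Agent.H26.Wiener
import Pool.Agent.H26.SiegelFix
import Pool.Agent.H26.SiegelODE
import Pool.Agent.H26.SiegelGeom

/-!
# MP_618f4a_an, Q1: a negative answer: definitions of the statement
-/

namespace Pool.H54.MV.Q1False

open Metric Set Filter Topology H26.Siegel

/-- `θ` is a Siegel number: irrational, with `|θ - p/q| > c/q^n` for some `c > 0`, some `n` and all
integers `p` and `q ≥ 1`. -/
def IsSiegelNumber (θ : ℝ) : Prop :=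
  Irrational θ ∧ ∃ c : ℝ, 0 < c ∧ ∃ n : ℕ, ∀ (p : ℤ) (q : ℕ), 1 ≤ q →
    c / (q : ℝ) ^ n < |θ - (p : ℝ) / (q : ℝ)|

/-- the multiplier `λ = e^{2 π i θ}` -/
noncomputable def mult (θ : ℝ) : ℂ := Complex.exp (2 * Real.pi * Complex.I * θ)

/-- `U` is a simply connected domain with `0 ∈ U`, `1 ∉ U` such that the germ at `0` with
`P(0) = 0`, `P'(z) = λ (1 - z)^ρ` (principal branch near `z = 0`) continues to a single valued
holomorphic map `F` on `U`, and `F` is conformally conjugate, on `U`, to the rotation by `λ` of a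
disk `{|ζ| < r}`. -/
def IsRotationDomain (ρ : ℂ) (θ : ℝ) (U : Set ℂ) : Prop :=
  IsOpen U ∧ SimplyConnectedSpace U ∧ (0 : ℂ) ∈ U ∧ (1 : ℂ) ∉ U ∧
  ∃ F : ℂ → ℂ, DifferentiableOn ℂ F U ∧ F 0 = 0 ∧
    (∀ᶠ z in 𝓝 (0 : ℂ), HasDerivAt F (mult θ * (1 - z) ^ ρ) z) ∧
    ∃ (r : ℝ) (φ : ℂ → ℂ), 0 < r ∧ DifferentiableOn ℂ φ (ball 0 r) ∧ InjOn φ (ball 0 r) ∧
      φ '' ball 0 r = U ∧ ∀ ζ ∈ ball (0 : ℂ) r, F (φ ζ) = φ (mult θ * ζ)

/-- `S` is the Siegel disk of `P_ρ` at `0`: the largest of the domains above. -/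
def IsSiegelDisk (ρ : ℂ) (θ : ℝ) (S : Set ℂ) : Prop :=
  IsGreatest {U : Set ℂ | IsRotationDomain ρ θ U} S

end Pool.H54.MV.Q1False
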