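import Mathlib
import Pool.Agent.H26.Wiener
import Pool.Agent.H26.SiegelFix
import Pool.Agent.H26.SiegelODE
import Pool.Agent.H26.SiegelGeom
import Pool.Agent.H54.MV.Q1FalseDefs

/-!
# MP_618f4a_an, Q1: a negative answer: the proof
-/

namespace Pool.H54.MV.Q1False

open Metric Set Filter Topology H26.Siegel

/-- two functions with the same value at `0` and the same derivative near `0` agree near `0` -/
theorem eventually_eq_of_deriv {F G D : ℂ → ℂ} (h0 : F 0 = G 0)
    (hF : ∀ᶠ z in 𝓝 (0 : ℂ), HasDerivAt F (D z) z)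
    (hG : ∀ᶠ z in 𝓝 (0 : ℂ), HasDerivAt G (D z) z) : ∀ᶠ z in 𝓝 (0 : ℂ), F z = G z := by
  obtain ⟨e, he, hb⟩ := Metric.eventually_nhds_iff_ball.1 (hF.and hG)
  filter_upwards [ball_mem_nhds (0 : ℂ) he] with z hz
  have hd : ∀ y ∈ ball (0 : ℂ) e, HasDerivAt (fun y => F y - G y) 0 y := by
    intro y hy
    have := (hb y hy).1.sub (hb y hy).2
    rwa [sub_self] at this
  have h1 := isOpen_ball.is_const_of_deriv_eq_zero (convex_ball (0 : ℂ) e).isPreconnected
    (fun y hy => (hd y hy).differentiableAt.differentiableWithinAt)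
    (fun y hy => (hd y hy).deriv) hz (mem_ball_self he)
  rw [h0, sub_self] at h1
  exact sub_eq_zero.1 h1

/-- the geometric part of the argument -/
theorem main_geom {ρ : ℂ} {θ : ℝ} {t : ℂ} {w u : ℂ → ℂ}
    (hnorm : ‖mult θ‖ = 1) (hroot : ∀ n : ℕ, mult θ ^ (n + 1) ≠ 1)
    (hρ : (1 - t) * (ρ + 1) = mult θ)
    (hw0 : w 0 = 0)
    (hwd : ∀ z ∈ ball (0 : ℂ) 1, HasDerivAt w (4 * Complex.exp (u z)) z)
    (hu : ∀ z ∈ ball (0 : ℂ) 1, ‖u z‖ ≤ 1 / 100)
    (hfe : ∀ z ∈ ball (0 : ℂ) 1, Complex.exp (w (mult θ * z)) =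
      t + (1 - t) * Complex.exp ((ρ + 1) * w z)) :
    ∃ S : Set ℂ, IsSiegelDisk ρ θ S ∧ (1 : ℂ) ∉ frontier S := by
  classical
  set lam := mult θ with hlamdef
  have hl0 : lam ≠ 0 := by
    intro h
    rw [h, norm_zero] at hnorm
    exact zero_ne_one hnorm
  set ψ : ℂ → ℂ := fun z => 1 - Complex.exp (w z) with hψ
  set ψ' : ℂ → ℂ := fun z => -(Complex.exp (w z) * (4 * Complex.exp (u z))) with hψ'
  have hψd : ∀ z ∈ ball (0 : ℂ) 1, HasDerivAt ψ (ψ' z) z := by
    intro z hz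
    exact ((hwd z hz).cexp).const_sub 1
  have hψne : ∀ z, ψ' z ≠ 0 := by
    intro z
    simp only [hψ']
    exact neg_ne_zero.2 (mul_ne_zero (Complex.exp_ne_zero _)
      (mul_ne_zero (by norm_num) (Complex.exp_ne_zero _)))
  have hψ0 : ψ 0 = 0 := by simp only [hψ]; rw [hw0, Complex.exp_zero, sub_self]
  have hψ1 : ∀ z, ψ z ≠ 1 := by
    intro z hz
    simp only [hψ] at hz
    have : Complex.exp (w z) = 0 := by linear_combination -hz
    exact Complex.exp_ne_zero _ this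
  have hball : ∀ s : ℝ, ∀ z ∈ ball (0 : ℂ) s, lam * z ∈ ball (0 : ℂ) s := by
    intro s z hz
    rw [mem_ball_zero_iff] at hz ⊢
    rw [norm_mul, hnorm, one_mul]
    exact hz
  -- the set of admissible radii
  set A : Set ℝ := {s | 0 < s ∧ s ≤ 1 ∧ InjOn ψ (ball (0 : ℂ) s)} with hA
  have hAbdd : BddAbove A := ⟨1, fun s hs => hs.2.1⟩
  have hhalf : (1 / 2 : ℝ) ∈ A := by
    refine ⟨by norm_num, by norm_num, ?_⟩
    intro x hx y hy hxy
    have hx1 : x ∈ ball (0 : ℂ) 1 := ball_subset_ball (by norm_num) hx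
    have hy1 : y ∈ ball (0 : ℂ) 1 := ball_subset_ball (by norm_num) hy
    have e : Complex.exp (w x) = Complex.exp (w y) := by
      simp only [hψ] at hxy
      linear_combination -hxy
    have hb : ∀ z ∈ ball (0 : ℂ) (1 / 2), -Real.pi < (w z).im ∧ (w z).im ≤ Real.pi := by
      intro z hz
      have h1 := norm_w_le hw0 hwd hu (ball_subset_ball (by norm_num : (1 / 2 : ℝ) ≤ 1) hz)
      rw [mem_ball_zero_iff] at hz
      have h2 := Complex.abs_im_le_norm (w z)
      have h3 := Real.pi_gt_three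
      have h4 : |(w z).im| ≤ 5 / 2 := by linarith
      have h5 := abs_le.1 h4
      constructor <;> linarith [h5.1, h5.2]
    have hw := Complex.exp_inj_of_neg_pi_lt_of_le_pi (hb x hx).1 (hb x hx).2 (hb y hy).1
      (hb y hy).2 e
    exact w_injOn hwd hu hx1 hy1 hw
  have hAle : ∀ s ∈ A, s ≤ 9 / 10 := by
    intro s hs
    by_contra hlt
    push Not at hlt
    have hpi : ‖(Real.pi : ℂ) * Complex.I‖ ≤ 7 / 2 := by
      rw [norm_mul, Complex.norm_I, mul_one, Complex.norm_real, Real.norm_of_nonneg Real.pi_pos.le]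
      have := Real.pi_lt_d2
      linarith
    have hpi2 : ‖-((Real.pi : ℂ) * Complex.I)‖ ≤ 7 / 2 := by rwa [norm_neg]
    obtain ⟨x, hx, hwx⟩ := exists_w_eq hw0 hwd hu hpi
    obtain ⟨y, hy, hwy⟩ := exists_w_eq hw0 hwd hu hpi2
    have hx' : x ∈ ball (0 : ℂ) s := closedBall_subset_ball hlt hx
    have hy' : y ∈ ball (0 : ℂ) s := closedBall_subset_ball hlt hy
    have e : ψ x = ψ y := by
      simp only [hψ]
      rw [hwx, hwy, Complex.exp_neg, Complex.exp_pi_mul_I]
      norm_num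
    have hxy := hs.2.2 hx' hy' e
    rw [hxy, hwy] at hwx
    have h2 : (Real.pi : ℂ) * Complex.I = 0 := by linear_combination -(1 / 2) * hwx
    rcases mul_eq_zero.1 h2 with h3 | h3
    · exact Real.pi_ne_zero (Complex.ofReal_eq_zero.1 h3)
    · exact Complex.I_ne_zero h3
  set s0 : ℝ := sSup A with hs0
  have hs0half : 1 / 2 ≤ s0 := le_csSup hAbdd hhalf
  have hs0pos : 0 < s0 := lt_of_lt_of_le (by norm_num) hs0half
  have hs0le : s0 ≤ 9 / 10 := csSup_le ⟨_, hhalf⟩ hAle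
  have hs0lt : s0 < 1 := lt_of_le_of_lt hs0le (by norm_num)
  have hinj : InjOn ψ (ball (0 : ℂ) s0) := by
    intro x hx y hy hxy
    rw [mem_ball_zero_iff] at hx hy
    obtain ⟨s, hsA, hs⟩ := exists_lt_of_lt_csSup ⟨_, hhalf⟩ (max_lt hx hy)
    exact hsA.2.2 (mem_ball_zero_iff.2 ((le_max_left _ _).trans_lt hs))
      (mem_ball_zero_iff.2 ((le_max_right _ _).trans_lt hs)) hxy
  have hsub1 : ball (0 : ℂ) s0 ⊆ ball (0 : ℂ) 1 := ball_subset_ball hs0lt.le
  have h0b : (0 : ℂ) ∈ ball (0 : ℂ) s0 := mem_ball_self hs0pos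
  set S : Set ℂ := ψ '' ball (0 : ℂ) s0 with hS
  have hmap : ∀ z ∈ ball (0 : ℂ) 1, map ψ (𝓝 z) = 𝓝 (ψ z) :=
    isOpen_image_of_deriv isOpen_ball hψd (fun z _ => hψne z)
  have hopen : IsOpen S := by
    rw [isOpen_iff_mem_nhds]
    rintro _ ⟨z, hz, rfl⟩
    rw [← hmap z (hsub1 hz)]
    exact image_mem_map (isOpen_ball.mem_nhds hz)
  have h0S : (0 : ℂ) ∈ S := ⟨0, h0b, hψ0⟩
  have h1S : (1 : ℂ) ∉ S := by
    rintro ⟨z, -, hz⟩
    exact hψ1 z hz
  -- the inverse
  set g : ℂ → ℂ := Function.invFunOn ψ (ball (0 : ℂ) s0) with hg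
  have hgmem : ∀ z ∈ S, g z ∈ ball (0 : ℂ) s0 := fun z hz => Function.invFunOn_mem hz
  have hψg : ∀ z ∈ S, ψ (g z) = z := fun z hz => Function.invFunOn_eq hz
  have hgψ : ∀ z ∈ ball (0 : ℂ) s0, g (ψ z) = z := fun z hz =>
    hinj (hgmem _ ⟨z, hz, rfl⟩) hz (hψg _ ⟨z, hz, rfl⟩)
  have hg0 : g 0 = 0 := by
    have := hgψ 0 h0b
    rwa [hψ0] at this
  have hgcont : ∀ z ∈ S, ContinuousAt g z := by
    rintro _ ⟨z, hz, rfl⟩
    rw [ContinuousAt, ← hmap z (hsub1 hz), tendsto_map'_iff, hgψ z hz]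
    refine tendsto_id.congr' ?_
    filter_upwards [isOpen_ball.mem_nhds hz] with y hy
    exact (hgψ y hy).symm
  have hgd : ∀ z ∈ S, HasDerivAt g (ψ' (g z))⁻¹ z := by
    intro z hz
    refine HasDerivAt.of_local_left_inverse (hgcont z hz) (hψd _ (hsub1 (hgmem z hz)))
      (hψne _) ?_
    filter_upwards [hopen.mem_nhds hz] with y hy
    exact hψg y hy
  -- simply connected
  have hsc : SimplyConnectedSpace S := by
    have hcb : ContractibleSpace (ball (0 : ℂ) s0) :=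
      (convex_ball (0 : ℂ) s0).contractibleSpace ⟨0, h0b⟩
    have hψcont : ContinuousOn ψ (ball (0 : ℂ) s0) := fun z hz =>
      (hψd z (hsub1 hz)).continuousAt.continuousWithinAt
    have hgcontOn : ContinuousOn g S := fun z hz => (hgcont z hz).continuousWithinAt
    let e : S ≃ₜ ball (0 : ℂ) s0 :=
      { toFun := fun z => ⟨g z, hgmem z z.2⟩
        invFun := fun z => ⟨ψ z, ⟨z, z.2, rfl⟩⟩
        left_inv := fun z => Subtype.ext (hψg z z.2)
        right_inv := fun z => Subtype.ext (hgψ z z.2)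
        continuous_toFun := (continuousOn_iff_continuous_domRestrict.1 hgcontOn).subtype_mk _
        continuous_invFun := (continuousOn_iff_continuous_domRestrict.1 hψcont).subtype_mk _ }
    have hcS : ContractibleSpace S := e.contractibleSpace
    exact SimplyConnectedSpace.ofContractible S
  -- the continued map
  set F : ℂ → ℂ := fun z => ψ (lam * g z) with hF
  have hlamd : ∀ z ∈ S, HasDerivAt F (ψ' (lam * g z) * (lam * (ψ' (g z))⁻¹)) z := by
    intro z hz
    have h1 := hψd _ (hsub1 (hball s0 _ (hgmem z hz)))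
    have h2 : HasDerivAt (fun y => lam * g y) (lam * (ψ' (g z))⁻¹) z := (hgd z hz).const_mul lam
    have h3 : HasDerivAt (ψ ∘ fun y => lam * g y) (ψ' (lam * g z) * (lam * (ψ' (g z))⁻¹)) z :=
      HasDerivAt.comp z h1 h2
    exact h3
  have hFd : DifferentiableOn ℂ F S := fun z hz =>
    (hlamd z hz).differentiableAt.differentiableWithinAt
  have hF0 : F 0 = 0 := by
    simp only [hF]
    rw [hg0, mul_zero, hψ0]
  have hgs : Tendsto g (𝓝 0) (𝓝 0) := by
    have := hgcont 0 h0S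
    rwa [ContinuousAt, hg0] at this
  have hFeq : ∀ z ∈ S, F z = 1 - t - (1 - t) * Complex.exp ((ρ + 1) * w (g z)) := by
    intro z hz
    simp only [hF, hψ]
    rw [hfe _ (hsub1 (hgmem z hz))]
    ring
  have hFder : ∀ᶠ z in 𝓝 (0 : ℂ), HasDerivAt F (lam * (1 - z) ^ ρ) z := by
    have hs : ∀ᶠ z in 𝓝 (0 : ℂ), g z ∈ ball (0 : ℂ) (1 / 2) :=
      hgs (ball_mem_nhds _ (by norm_num))
    filter_upwards [hopen.mem_nhds h0S, hs] with z hz hgz
    have hgz1 := hsub1 (hgmem z hz)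
    have hwz : ‖w (g z)‖ ≤ 5 / 2 := by
      have h1 := norm_w_le hw0 hwd hu hgz1
      rw [mem_ball_zero_iff] at hgz
      linarith
    have hz1 : 1 - z = Complex.exp (w (g z)) := by
      have := hψg z hz
      simp only [hψ] at this
      linear_combination this
    have hlog : Complex.log (1 - z) = w (g z) := by
      rw [hz1]
      have h2 := Complex.abs_im_le_norm (w (g z))
      have h3 := Real.pi_gt_three
      have h5 := abs_le.1 (h2.trans hwz)
      exact Complex.log_exp (by linarith [h5.1]) (by linarith [h5.2])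
    have hne : (1 - z) ≠ 0 := by rw [hz1]; exact Complex.exp_ne_zero _
    have hcp : (1 - z) ^ ρ = Complex.exp (w (g z) * ρ) := by
      rw [Complex.cpow_def_of_ne_zero hne, hlog]
    -- derivative of the explicit formula
    have hwg : HasDerivAt (fun y => w (g y)) (4 * Complex.exp (u (g z)) * (ψ' (g z))⁻¹) z :=
      (hwd _ hgz1).comp z (hgd z hz)
    have h6 : HasDerivAt (fun y => 1 - t - (1 - t) * Complex.exp ((ρ + 1) * w (g y)))
        (-((1 - t) * (Complex.exp ((ρ + 1) * w (g z)) *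
          ((ρ + 1) * (4 * Complex.exp (u (g z)) * (ψ' (g z))⁻¹))))) z :=
      (((hwg.const_mul (ρ + 1)).cexp).const_mul (1 - t)).const_sub (1 - t)
    have h7 : HasDerivAt F (-((1 - t) * (Complex.exp ((ρ + 1) * w (g z)) *
          ((ρ + 1) * (4 * Complex.exp (u (g z)) * (ψ' (g z))⁻¹))))) z := by
      refine h6.congr_of_eventuallyEq ?_
      filter_upwards [hopen.mem_nhds hz] with y hy
      exact hFeq y hy
    refine h7.congr_deriv ?_
    rw [hcp]
    have h8 : Complex.exp ((ρ + 1) * w (g z)) =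
        Complex.exp (w (g z) * ρ) * Complex.exp (w (g z)) := by
      rw [← Complex.exp_add]
      congr 1
      ring
    rw [h8, ← hρ]
    simp only [hψ']
    have h9 := Complex.exp_ne_zero (w (g z))
    have h10 := Complex.exp_ne_zero (u (g z))
    field_simp
  have hFconj : ∀ ζ ∈ ball (0 : ℂ) s0, F (ψ ζ) = ψ (lam * ζ) := by
    intro ζ hζ
    simp only [hF]
    rw [hgψ ζ hζ]
  have hrot : IsRotationDomain ρ θ S := by
    refine ⟨hopen, hsc, h0S, h1S, F, hFd, hF0, hFder, s0, ψ, hs0pos, ?_, hinj, rfl, hFconj⟩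
    exact fun z hz => (hψd z (hsub1 hz)).differentiableAt.differentiableWithinAt
  refine ⟨S, ⟨hrot, ?_⟩, ?_⟩
  · -- maximality
    rintro U ⟨hUo, -, h0U, -, G, hGd, hG0, hGder, r, φ, hr, hφd, hφinj, hφim, hφconj⟩
    have hFG : ∀ᶠ z in 𝓝 (0 : ℂ), G z = F z :=
      eventually_eq_of_deriv (hG0.trans hF0.symm) hGder hFder
    have h0r : (0 : ℂ) ∈ ball (0 : ℂ) r := mem_ball_self hr
    -- φ 0 = 0
    have hφ0 : φ 0 = 0 := by
      rw [← hφim] at h0U
      obtain ⟨ζ, hζ, hζ0⟩ := h0U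
      have h1 := hφconj ζ hζ
      rw [hζ0, hG0, ← hζ0] at h1
      have h2 := hφinj hζ (hball r ζ hζ) h1
      have h3 : (lam - 1) * ζ = 0 := by linear_combination -h2
      rcases mul_eq_zero.1 h3 with h4 | h4
      · exfalso
        apply hroot 0
        rw [zero_add, pow_one]
        linear_combination h4
      · rw [h4] at hζ0
        exact hζ0
    have hφcont : ContinuousAt φ 0 :=
      (hφd.differentiableAt (isOpen_ball.mem_nhds h0r)).continuousAt
    have hφt : Tendsto φ (𝓝 0) (𝓝 0) := by rwa [ContinuousAt, hφ0] at hφcont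
    -- the comparison map near 0
    obtain ⟨δ, hδ, hδb⟩ := Metric.eventually_nhds_iff_ball.1
      ((hφt.eventually (hFG.and (hopen.mem_nhds h0S))).and
        (ball_mem_nhds (0 : ℂ) hr))
    set κ : ℂ → ℂ := fun z => g (φ z) with hκ
    have hκd : DifferentiableOn ℂ κ (ball 0 δ) := by
      intro z hz
      have h1 := hδb z hz
      have h2 := (hgd _ h1.1.2).differentiableAt
      have h3 := hφd.differentiableAt (isOpen_ball.mem_nhds h1.2)
      exact (h2.comp z h3).differentiableWithinAt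
    have hκc : ∀ z ∈ ball (0 : ℂ) δ, κ (lam * z) = lam * κ z := by
      intro z hz
      have h1 := hδb z hz
      simp only [hκ]
      have h2 := hφconj z h1.2
      have h3 : G (φ z) = F (φ z) := h1.1.1
      rw [← h2, h3]
      simp only [hF]
      exact hgψ _ (hball s0 _ (hgmem _ h1.1.2))
    obtain ⟨c, hc⟩ := linear_of_commute hδ hnorm hroot hκd hκc
    have hφc : ∀ z ∈ ball (0 : ℂ) δ, φ z = ψ (c * z) := by
      intro z hz
      have h1 := hδb z hz
      rw [← hc z hz]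
      simp only [hκ]
      exact (hψg _ h1.1.2).symm
    have hc0 : c ≠ 0 := by
      intro h
      have hz : ((δ / 2 : ℝ) : ℂ) ∈ ball (0 : ℂ) δ := by
        rw [mem_ball_zero_iff, Complex.norm_real, Real.norm_of_nonneg (by positivity)]
        linarith
      have h1 := hφc _ hz
      rw [h, zero_mul, hψ0, ← hφ0] at h1
      have h2 := hφinj (hδb _ hz).2 h0r h1
      have h3 : δ / 2 = 0 := by exact_mod_cast h2
      linarith
    have hcn : 0 < ‖c‖ := norm_pos_iff.2 hc0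
    set r' : ℝ := min r (1 / ‖c‖) with hr'
    have hr'pos : 0 < r' := lt_min hr (by positivity)
    have hr'r : ball (0 : ℂ) r' ⊆ ball (0 : ℂ) r := ball_subset_ball (min_le_left _ _)
    have hcm : ∀ z ∈ ball (0 : ℂ) r', c * z ∈ ball (0 : ℂ) 1 := by
      intro z hz
      rw [mem_ball_zero_iff] at hz ⊢
      rw [norm_mul]
      have h1 : ‖z‖ < 1 / ‖c‖ := hz.trans_le (min_le_right _ _)
      rw [lt_div_iff₀ hcn] at h1
      linarith
    have hψan : AnalyticOnNhd ℂ ψ (ball (0 : ℂ) 1) := by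
      have : DifferentiableOn ℂ ψ (ball (0 : ℂ) 1) := fun z hz =>
        (hψd z hz).differentiableAt.differentiableWithinAt
      exact this.analyticOnNhd isOpen_ball
    have heq : EqOn φ (fun z => ψ (c * z)) (ball (0 : ℂ) r') := by
      have h1 : AnalyticOnNhd ℂ φ (ball (0 : ℂ) r') :=
        (hφd.mono hr'r).analyticOnNhd isOpen_ball
      have h2 : AnalyticOnNhd ℂ (fun z => ψ (c * z)) (ball (0 : ℂ) r') := by
        have : DifferentiableOn ℂ (fun z => ψ (c * z)) (ball (0 : ℂ) r') := by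
          intro z hz
          have h3 := (hψd _ (hcm z hz)).differentiableAt
          have h4 : DifferentiableAt ℂ (fun z => c * z) z := by fun_prop
          exact (DifferentiableAt.comp z h3 h4).differentiableWithinAt
        exact this.analyticOnNhd isOpen_ball
      refine h1.eqOn_of_preconnected_of_eventuallyEq h2
        (convex_ball (0 : ℂ) r').isPreconnected (mem_ball_self hr'pos) ?_
      filter_upwards [ball_mem_nhds (0 : ℂ) hδ] with z hz
      exact hφc z hz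
    have hAmem : ‖c‖ * r' ∈ A := by
      refine ⟨by positivity, ?_, ?_⟩
      · have h1 : r' ≤ 1 / ‖c‖ := min_le_right _ _
        rw [le_div_iff₀ hcn] at h1
        linarith
      · intro x hx y hy hxy
        have hin : ∀ z ∈ ball (0 : ℂ) (‖c‖ * r'), z / c ∈ ball (0 : ℂ) r' := by
          intro z hz
          rw [mem_ball_zero_iff] at hz ⊢
          rw [norm_div, div_lt_iff₀ hcn]
          linarith
        have hcx : c * (x / c) = x := by field_simp
        have hcy : c * (y / c) = y := by field_simp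
        have e1 : φ (x / c) = ψ x := by
          rw [heq (hin x hx)]
          simp only [hcx]
        have e2 : φ (y / c) = ψ y := by
          rw [heq (hin y hy)]
          simp only [hcy]
        have h3 := hφinj (hr'r (hin x hx)) (hr'r (hin y hy)) (by rw [e1, e2, hxy])
        rw [← hcx, ← hcy, h3]
    have hle : ‖c‖ * r' ≤ s0 := le_csSup hAbdd hAmem
    have hrr : r' = r := by
      rcases min_choice r (1 / ‖c‖) with h | h
      · rw [hr', h]
      · exfalso
        rw [hr', h] at hle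
        have : ‖c‖ * (1 / ‖c‖) = 1 := by field_simp
        rw [this] at hle
        linarith
    rw [← hφim]
    rintro _ ⟨ζ, hζ, rfl⟩
    rw [← hrr] at hζ
    rw [heq hζ]
    refine ⟨c * ζ, ?_, rfl⟩
    rw [mem_ball_zero_iff] at hζ ⊢
    rw [norm_mul]
    have := mul_lt_mul_of_pos_left hζ hcn
    linarith
  · -- the boundary
    intro hmem
    have h1 : (1 : ℂ) ∈ closure S := frontier_subset_closure hmem
    have hcb : closedBall (0 : ℂ) s0 ⊆ ball (0 : ℂ) 1 := closedBall_subset_ball hs0lt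
    have hK : IsCompact (ψ '' closedBall (0 : ℂ) s0) := by
      refine (isCompact_closedBall (0 : ℂ) s0).image_of_continuousOn ?_
      exact fun z hz => (hψd z (hcb hz)).continuousAt.continuousWithinAt
    have h2 : closure S ⊆ ψ '' closedBall (0 : ℂ) s0 :=
      closure_minimal (image_mono ball_subset_closedBall) hK.isClosed
    obtain ⟨z, -, hz⟩ := h2 h1
    exact hψ1 z hz

theorem sqrt_two_bound (N : ℕ) (m : ℤ) (hN : 1 ≤ N) :
    1 / (4 * (N : ℝ)) ≤ |(N : ℝ) * Real.sqrt 2 - m| := by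
  by_contra hlt
  push Not at hlt
  have hN1 : (1 : ℝ) ≤ N := by exact_mod_cast hN
  have hs2 : Real.sqrt 2 ^ 2 = 2 := Real.sq_sqrt (by norm_num)
  have hs0 : 0 ≤ Real.sqrt 2 := Real.sqrt_nonneg 2
  have hs1 : Real.sqrt 2 ≤ 3 / 2 := by
    rw [Real.sqrt_le_left (by norm_num)]
    norm_num
  have hne : (2 * (N : ℤ) ^ 2 - m ^ 2) ≠ 0 := by
    intro h
    apply irrational_sqrt_two
    have h1 : (m : ℝ) ^ 2 = ((N : ℝ) * Real.sqrt 2) ^ 2 := by
      rw [mul_pow, hs2]
      have : ((2 * (N : ℤ) ^ 2 - m ^ 2 : ℤ) : ℝ) = 0 := by rw [h]; simp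
      push_cast at this
      linarith
    have h2 : |(m : ℝ)| = |(N : ℝ) * Real.sqrt 2| := by
      rwa [sq_eq_sq_iff_abs_eq_abs] at h1
    rw [abs_of_nonneg (by positivity : 0 ≤ (N : ℝ) * Real.sqrt 2)] at h2
    refine ⟨(|m| : ℤ) / (N : ℚ), ?_⟩
    push_cast
    rw [h2]
    field_simp
  have h1 : (1 : ℝ) ≤ |((2 * (N : ℤ) ^ 2 - m ^ 2 : ℤ) : ℝ)| := by
    have : (1 : ℤ) ≤ |2 * (N : ℤ) ^ 2 - m ^ 2| := Int.one_le_abs hne
    exact_mod_cast this
  have h2 : ((2 * (N : ℤ) ^ 2 - m ^ 2 : ℤ) : ℝ) =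
      ((N : ℝ) * Real.sqrt 2 - m) * ((N : ℝ) * Real.sqrt 2 + m) := by
    push_cast
    linear_combination (-(N : ℝ) ^ 2) * hs2
  rw [h2, abs_mul] at h1
  set d := |(N : ℝ) * Real.sqrt 2 - m| with hd
  have h3 : |(N : ℝ) * Real.sqrt 2 + m| ≤ 2 * ((N : ℝ) * Real.sqrt 2) + d := by
    have h4 : (N : ℝ) * Real.sqrt 2 + m =
        2 * ((N : ℝ) * Real.sqrt 2) - ((N : ℝ) * Real.sqrt 2 - m) := by ring
    rw [h4]
    have h5 := abs_sub (2 * ((N : ℝ) * Real.sqrt 2)) ((N : ℝ) * Real.sqrt 2 - m)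
    rwa [abs_of_nonneg (by positivity : 0 ≤ 2 * ((N : ℝ) * Real.sqrt 2))] at h5
  have hd0 : 0 ≤ d := abs_nonneg _
  have hN0 : (0 : ℝ) < 4 * N := by linarith
  have hd1 : d * (4 * N) < 1 := by rwa [lt_div_iff₀ hN0] at hlt
  have hd2 : d ≤ 1 / 4 := by nlinarith
  have h6 : |(N : ℝ) * Real.sqrt 2 + m| ≤ 4 * N := by
    have : (N : ℝ) * Real.sqrt 2 ≤ N * (3 / 2) := by gcongr
    linarith
  have h7 : d * |(N : ℝ) * Real.sqrt 2 + m| ≤ d * (4 * N) := by gcongr
  linarith

theorem norm_exp_sub_one_ge {x : ℝ} (hx : |x| ≤ 1 / 2) :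
    4 * |x| ≤ ‖Complex.exp (((2 * Real.pi * x : ℝ) : ℂ) * Complex.I) - 1‖ := by
  have h1 : ‖Complex.exp (Complex.I * ((2 * Real.pi * x : ℝ) : ℂ)) - 1‖ =
      ‖2 * Real.sin ((2 * Real.pi * x) / 2)‖ := Complex.norm_exp_I_mul_ofReal_sub_one _
  rw [mul_comm Complex.I] at h1
  rw [h1, norm_mul, Real.norm_eq_abs, Real.norm_eq_abs]
  have h2 : (2 * Real.pi * x) / 2 = Real.pi * x := by ring
  rw [h2]
  have hpi := Real.pi_pos
  have h3 : |Real.pi * x| ≤ Real.pi / 2 := by
    rw [abs_mul, abs_of_pos hpi]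
    nlinarith
  have h4 := Real.mul_abs_le_abs_sin h3
  rw [abs_mul, abs_of_pos hpi] at h4
  have h5 : 2 / Real.pi * (Real.pi * |x|) = 2 * |x| := by field_simp
  rw [h5] at h4
  have h6 : |(2 : ℝ)| = 2 := by norm_num
  rw [h6]
  linarith

/-- the chosen rotation number -/
noncomputable def th : ℝ := Real.sqrt 2 / ((10 ^ 9 : ℕ) : ℝ)

theorem th_bound (q : ℕ) (p : ℤ) (hq : 1 ≤ q) :
    1 / (4 * (q : ℝ) * 10 ^ 9) ≤ |(q : ℝ) * th - p| := by
  have h := sqrt_two_bound q (p * 10 ^ 9) hq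
  have hq0 : (0 : ℝ) < q := by exact_mod_cast hq
  have e : (q : ℝ) * th - p = ((q : ℝ) * Real.sqrt 2 - ((p * 10 ^ 9 : ℤ) : ℝ)) / 10 ^ 9 := by
    unfold th
    push_cast
    ring
  rw [e, abs_div, abs_of_pos (by norm_num : (0 : ℝ) < 10 ^ 9), le_div_iff₀ (by norm_num)]
  refine le_trans (le_of_eq ?_) h
  field_simp

theorem th_siegel : IsSiegelNumber th := by
  refine ⟨irrational_sqrt_two.div_natCast (by norm_num), 1 / (5 * 10 ^ 9), by norm_num, 2, ?_⟩
  intro p q hq
  have hq0 : (0 : ℝ) < q := by exact_mod_cast hq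
  have h := th_bound q p hq
  have e : th - (p : ℝ) / q = ((q : ℝ) * th - p) / q := by field_simp
  rw [e, abs_div, abs_of_pos hq0, lt_div_iff₀ hq0]
  refine lt_of_lt_of_le ?_ h
  rw [div_div, div_mul_eq_mul_div, div_lt_div_iff₀ (by positivity) (by positivity)]
  nlinarith [pow_pos hq0 2]

theorem mult_eq (θ : ℝ) : mult θ = Complex.exp (((2 * Real.pi * θ : ℝ) : ℂ) * Complex.I) := by
  unfold mult
  congr 1
  push_cast
  ring

theorem norm_mult (θ : ℝ) : ‖mult θ‖ = 1 := by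
  rw [mult_eq, Complex.norm_exp_ofReal_mul_I]

theorem mult_pow_bound (n : ℕ) :
    (2 * Real.pi * th) / (10 * ((n : ℝ) + 1)) ≤ ‖mult th ^ (n + 1) - 1‖ := by
  set N : ℕ := n + 1 with hN
  have hN1 : 1 ≤ N := Nat.succ_le_succ (Nat.zero_le n)
  have hN0 : (0 : ℝ) < N := by exact_mod_cast hN1
  set k : ℤ := round ((N : ℝ) * th) with hk
  have hx : |(N : ℝ) * th - k| ≤ 1 / 2 := abs_sub_round _
  have h1 := norm_exp_sub_one_ge hx
  have h2 := th_bound N k hN1
  have e : mult th ^ N = Complex.exp (((2 * Real.pi * ((N : ℝ) * th - k) : ℝ) : ℂ) *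
      Complex.I) := by
    rw [mult_eq, ← Complex.exp_nat_mul]
    have h3 : (N : ℂ) * (((2 * Real.pi * th : ℝ) : ℂ) * Complex.I) =
        ((2 * Real.pi * ((N : ℝ) * th - k) : ℝ) : ℂ) * Complex.I +
          (k : ℂ) * (2 * Real.pi * Complex.I) := by
      push_cast
      ring
    rw [h3, Complex.exp_add, Complex.exp_int_mul_two_pi_mul_I, mul_one]
  rw [e]
  refine le_trans ?_ h1
  have h4 : (2 * Real.pi * th) / (10 * ((n : ℝ) + 1)) ≤ 4 * (1 / (4 * (N : ℝ) * 10 ^ 9)) := by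
    have hNn : ((n : ℝ) + 1) = N := by rw [hN]; push_cast; ring
    rw [hNn]
    have hpi : Real.pi ≤ 3.15 := Real.pi_lt_d2.le
    have hs0 : 0 ≤ Real.sqrt 2 := Real.sqrt_nonneg 2
    have hs1 : Real.sqrt 2 ≤ 3 / 2 := by
      rw [Real.sqrt_le_left (by norm_num)]
      norm_num
    have hps : Real.pi * Real.sqrt 2 ≤ 5 := by
      have := mul_le_mul hpi hs1 hs0 (by norm_num)
      linarith
    have e1 : 2 * Real.pi * th / (10 * (N : ℝ)) =
        (Real.pi * Real.sqrt 2 / 5) * (1 / ((N : ℝ) * 10 ^ 9)) := by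
      unfold th
      push_cast
      field_simp
      ring
    have e2 : 4 * (1 / (4 * (N : ℝ) * 10 ^ 9)) = 1 * (1 / ((N : ℝ) * 10 ^ 9)) := by
      field_simp
    rw [e1, e2]
    refine mul_le_mul_of_nonneg_right ?_ (by positivity)
    rw [div_le_iff₀ (by norm_num)]
    linarith
  linarith

/-- **Q1 of MP_618f4a_an is false.** There are `ρ` with `Re ρ > 0` and a Siegel number `θ` for which
the Siegel disk of `P_ρ` at `0` exists and does not have `1` on its boundary. -/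
theorem result : ∃ (ρ : ℂ) (θ : ℝ), 0 < ρ.re ∧ IsSiegelNumber θ ∧
    ∃ S : Set ℂ, IsSiegelDisk ρ θ S ∧ (1 : ℂ) ∉ frontier S := by
  set θ : ℝ := 2 * Real.pi * th with hθ
  have hs0 : 0 < Real.sqrt 2 := Real.sqrt_pos.2 (by norm_num)
  have hs1 : Real.sqrt 2 ≤ 3 / 2 := by
    rw [Real.sqrt_le_left (by norm_num)]
    norm_num
  have hpi := Real.pi_pos
  have hpi2 : Real.pi ≤ 3.15 := Real.pi_lt_d2.le
  have hth0 : 0 < th := by unfold th; positivity
  have hθ0 : 0 < θ := by positivity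
  have hθ1 : θ ≤ 1 / 10 ^ 7 := by
    have hps : Real.pi * Real.sqrt 2 ≤ 5 := by
      have := mul_le_mul hpi2 hs1 hs0.le (by norm_num)
      linarith
    have e1 : θ = (Real.pi * Real.sqrt 2) * (2 / 10 ^ 9) := by
      rw [hθ]
      unfold th
      push_cast
      ring
    rw [e1]
    have := mul_le_mul_of_nonneg_right hps (by norm_num : (0 : ℝ) ≤ 2 / 10 ^ 9)
    refine this.trans ?_
    norm_num
  have hsq : θ ^ 2 ≤ 1 / 10 ^ 12 := by
    have : θ ^ 2 ≤ (1 / 10 ^ 7) ^ 2 := by gcongr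
    refine this.trans ?_
    norm_num
  have hpos : 0 < 1 - θ ^ 2 := by
    have : (1 : ℝ) / 10 ^ 12 < 1 := by norm_num
    linarith
  have hcc : ((1 : ℂ) - (θ : ℂ) ^ 2) = ((1 - θ ^ 2 : ℝ) : ℂ) := by push_cast; ring
  have hcne : ((1 : ℂ) - (θ : ℂ) ^ 2) ≠ 0 := by
    rw [hcc]
    exact Complex.ofReal_ne_zero.2 hpos.ne'
  obtain ⟨w, u, hw0, hwd, hu, hfe⟩ := exists_w hθ0 hθ1 (norm_mult th) mult_pow_bound
  refine ⟨mult th / (1 - (θ : ℂ) ^ 2) - 1, th, ?_, th_siegel, ?_⟩
  · rw [hcc, Complex.sub_re, Complex.div_ofReal_re, Complex.one_re, mult_eq,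
      Complex.exp_ofReal_mul_I_re, sub_pos, lt_div_iff₀ hpos]
    have h1 := Real.one_sub_sq_div_two_le_cos (x := θ)
    have h2 : 0 < θ ^ 2 := by positivity
    rw [← hθ]
    linarith
  · refine main_geom (t := (θ : ℂ) ^ 2) (w := w) (u := u) (norm_mult th) ?_ ?_ hw0 hwd hu ?_
    · intro n hn
      have h1 := mult_pow_bound n
      rw [hn, sub_self, norm_zero] at h1
      have : 0 < (2 * Real.pi * th) / (10 * ((n : ℝ) + 1)) := by positivity
      linarith
    · rw [sub_add_cancel]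
      field_simp
    · intro z hz
      rw [sub_add_cancel]
      exact hfe z hz

end Pool.H54.MV.Q1False
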