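import Mathlib

/-!
# # ThreeEckardt: definitions of the statement
-/

set_option autoImplicit false

open MvPolynomial

namespace Pool.H54.MV.ThreeEckardt

variable {K : Type*} [Field K]

/-- The weighted sextic `w² - (z³ + A(x,y) z + B(x,y))`, a polynomial in `x, y, z, w`
(the variables `0, 1, 2, 3`, of weights `1, 1, 2, 3`). -/
noncomputable def sextic (A B : MvPolynomial (Fin 2) K) : MvPolynomial (Fin 4) K :=
  X 3 ^ 2 - (X 2 ^ 3 + aeval ![(X 0 : MvPolynomial (Fin 4) K), X 1] A * X 2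
    + aeval ![(X 0 : MvPolynomial (Fin 4) K), X 1] B)

/-- `w² = z³ + A z + B` is a del Pezzo surface of degree one: `A`, `B` are binary forms of
degrees `4` and `6` and the sextic is smooth in `ℙ(1,1,2,3)`. -/
structure IsDelPezzoOne (A B : MvPolynomial (Fin 2) K) : Prop where
  homA : A.IsHomogeneous 4
  homB : B.IsHomogeneous 6
  smooth : ∀ P : Fin 4 → K, P ≠ 0 → eval P (sextic A B) = 0 →
    ∃ i, eval P (pderiv i (sextic A B)) ≠ 0

/-- Two coordinate vectors give the same point of `ℙ(1,1,2,3)`. -/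
def SamePoint (P Q : Fin 4 → K) : Prop :=
  ∃ t : K, t ≠ 0 ∧ Q = ![t * P 0, t * P 1, t ^ 2 * P 2, t ^ 3 * P 3]

/-- The exceptional curves `z = q(x,y)`, `w = c(x,y)` of the surface `w² = z³ + A z + B`. -/
def excCurves (A B : MvPolynomial (Fin 2) K) :
    Set (MvPolynomial (Fin 2) K × MvPolynomial (Fin 2) K) :=
  {L | L.1.IsHomogeneous 2 ∧ L.2.IsHomogeneous 3 ∧ L.2 ^ 2 = L.1 ^ 3 + A * L.1 + B}

/-- The exceptional curves through the point `P`. -/
def excThrough (A B : MvPolynomial (Fin 2) K) (P : Fin 4 → K) :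
    Set (MvPolynomial (Fin 2) K × MvPolynomial (Fin 2) K) :=
  {L | L ∈ excCurves A B ∧ P 2 = eval ![P 0, P 1] L.1 ∧ P 3 = eval ![P 0, P 1] L.2}

/-- `P` is a generalized Eckardt point of the surface `w² = z³ + A z + B`: it lies on the surface
and on exactly ten exceptional curves. -/
def IsGenEckardt (A B : MvPolynomial (Fin 2) K) (P : Fin 4 → K) : Prop :=
  P ≠ 0 ∧ eval P (sextic A B) = 0 ∧ (excThrough A B P).ncard = 10

/-- The binary sextic `B_β = -(x² + y²)³ + β x² y⁴`. -/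
noncomputable def formB (β : K) : MvPolynomial (Fin 2) K :=
  -(X 0 ^ 2 + X 1 ^ 2) ^ 3 + C β * (X 0 ^ 2 * X 1 ^ 4)

end Pool.H54.MV.ThreeEckardt
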