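import Mathlib
import Pool.Agent.H54.MV.ThreeEckardtDefs

/-!
# # ThreeEckardt: the proof
-/

set_option autoImplicit false

open MvPolynomial

namespace Pool.H54.MV.ThreeEckardt

variable {K : Type*} [Field K]

lemma formB_hom (β : K) : (formB β).IsHomogeneous 6 := by
  unfold formB
  have h1 : ((X 0 ^ 2 + X 1 ^ 2 : MvPolynomial (Fin 2) K)).IsHomogeneous 2 :=
    ((isHomogeneous_X _ _).pow 2).add ((isHomogeneous_X _ _).pow 2)
  refine IsHomogeneous.add (IsHomogeneous.neg ?_) (IsHomogeneous.C_mul ?_ _)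
  · simpa using h1.pow 3
  · simpa using ((isHomogeneous_X K (0 : Fin 2)).pow 2).mul ((isHomogeneous_X K (1 : Fin 2)).pow 4)

/-- coefficients of a binary form -/
lemma binary_form {n : ℕ} {F : MvPolynomial (Fin 2) K} (hF : F.IsHomogeneous n) :
    ∃ c : ℕ → K, F = ∑ i ∈ Finset.range (n + 1), C (c i) * (X 0 ^ (n - i) * X 1 ^ i) := by
  refine ⟨fun i => coeff (Finsupp.single 0 (n - i) + Finsupp.single 1 i) F, ?_⟩
  ext s
  rw [coeff_sum]
  have hmon : ∀ i, (X 0 ^ (n - i) * X 1 ^ i : MvPolynomial (Fin 2) K)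
      = monomial (Finsupp.single 0 (n - i) + Finsupp.single 1 i) 1 := by
    intro i
    rw [X_pow_eq_monomial, X_pow_eq_monomial, monomial_mul, one_mul]
  simp only [coeff_C_mul, hmon, coeff_monomial]
  by_cases hs : s 0 + s 1 = n
  · rw [Finset.sum_eq_single (s 1)]
    · have : Finsupp.single 0 (n - s 1) + Finsupp.single 1 (s 1) = s := by
        ext j
        fin_cases j
        · simp
          omega
        · simp
      rw [if_pos this, this, mul_one]
    · intro i _ hi
      rw [if_neg, mul_zero]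
      intro h
      apply hi
      rw [← h]
      simp
    · intro h
      exfalso
      apply h
      rw [Finset.mem_range]
      omega
  · rw [Finset.sum_eq_zero]
    · by_contra hne
      apply hs
      have h1 := hF hne
      rw [← h1, Finsupp.weight_apply, Finsupp.sum_fintype]
      · simp
      · simp
    · intro i hi
      rw [Finset.mem_range] at hi
      rw [if_neg, mul_zero]
      intro h
      apply hs
      rw [← h]
      simp
      omega

/-- the coefficient data of a line through `(1 : 0 : 1 : 0)` -/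
noncomputable def lineOf (t : K × K × K × K) :
    MvPolynomial (Fin 2) K × MvPolynomial (Fin 2) K :=
  (X 0 ^ 2 + C t.1 * X 1 ^ 2,
    C t.2.1 * (X 0 ^ 2 * X 1) + C t.2.2.1 * (X 0 * X 1 ^ 2) + C t.2.2.2 * X 1 ^ 3)

/-- the equations of the coefficient data -/
def dataSet (β : K) : Set (K × K × K × K) :=
  {t | t.2.1 ^ 2 = 3 * (t.1 - 1) ∧ t.2.1 * t.2.2.1 = 0 ∧
    t.2.2.1 ^ 2 + 2 * (t.2.1 * t.2.2.2) = 3 * t.1 ^ 2 - 3 + β ∧
    t.2.2.1 * t.2.2.2 = 0 ∧ t.2.2.2 ^ 2 = t.1 ^ 3 - 1}

lemma lineOf_injective (h2 : (2 : K) ≠ 0) : Function.Injective (lineOf (K := K)) := by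
  rintro ⟨e, u, v, s⟩ ⟨e', u', v', s'⟩ h
  have h1 := congrArg (fun L => eval ![0, 1] L.1) h
  have h2' := congrArg (fun L => eval ![0, 1] L.2) h
  have h3 := congrArg (fun L => eval ![1, 1] L.2) h
  have h4 := congrArg (fun L => eval ![1, -1] L.2) h
  simp [lineOf] at h1 h2' h3 h4
  subst h1
  subst h2'
  have hu : 2 * (u - u') = 0 := by linear_combination h3 - h4
  have hu' : u = u' := sub_eq_zero.mp ((mul_eq_zero.mp hu).resolve_left h2)
  subst hu'
  have hv : v = v' := by linear_combination h3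
  subst hv
  rfl

lemma coeffs_zero [Infinite K] {c1 c2 c3 c4 c5 c6 : K}
    (h : ∀ t : K, c1 * t + c2 * t ^ 2 + c3 * t ^ 3 + c4 * t ^ 4 + c5 * t ^ 5 + c6 * t ^ 6 = 0) :
    c1 = 0 ∧ c2 = 0 ∧ c3 = 0 ∧ c4 = 0 ∧ c5 = 0 ∧ c6 = 0 := by
  have h0 : (Polynomial.C c1 * Polynomial.X + Polynomial.C c2 * Polynomial.X ^ 2
      + Polynomial.C c3 * Polynomial.X ^ 3 + Polynomial.C c4 * Polynomial.X ^ 4
      + Polynomial.C c5 * Polynomial.X ^ 5 + Polynomial.C c6 * Polynomial.X ^ 6
      : Polynomial K) = 0 := by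
    apply Polynomial.funext
    intro t
    simpa using h t
  have e1 := congrArg (fun P => Polynomial.coeff P 1) h0
  have e2 := congrArg (fun P => Polynomial.coeff P 2) h0
  have e3 := congrArg (fun P => Polynomial.coeff P 3) h0
  have e4 := congrArg (fun P => Polynomial.coeff P 4) h0
  have e5 := congrArg (fun P => Polynomial.coeff P 5) h0
  have e6 := congrArg (fun P => Polynomial.coeff P 6) h0
  simp [Polynomial.coeff_X_pow] at e1 e2 e3 e4 e5 e6
  exact ⟨e1, e2, e3, e4, e5, e6⟩

lemma excThrough_eq [Infinite K] (h2 : (2 : K) ≠ 0) (h3 : (3 : K) ≠ 0) (β : K) :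
    excThrough 0 (formB β) ![1, 0, 1, 0] = lineOf '' dataSet β := by
  ext ⟨q, c⟩
  constructor
  · rintro ⟨⟨hq, hc, heq⟩, hz, hw⟩
    obtain ⟨a, ha⟩ := binary_form hq
    obtain ⟨b, hb⟩ := binary_form hc
    simp only [Finset.sum_range_succ, Finset.sum_range_zero] at ha hb
    norm_num at ha hb
    simp at hz hw
    rw [ha] at hz
    rw [hb] at hw
    simp at hz hw
    have key : ∀ t : K, (-3 * a 1) * t + (b 1 ^ 2 - 3 * a 2 - 3 * a 1 ^ 2 + 3) * t ^ 2
        + (2 * b 1 * b 2 - 6 * a 1 * a 2 - a 1 ^ 3) * t ^ 3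
        + (b 2 ^ 2 + 2 * b 1 * b 3 - 3 * a 2 ^ 2 - 3 * a 1 ^ 2 * a 2 + 3 - β) * t ^ 4
        + (2 * b 2 * b 3 - 3 * a 1 * a 2 ^ 2) * t ^ 5
        + (b 3 ^ 2 - a 2 ^ 3 + 1) * t ^ 6 = 0 := by
      intro t
      have h1 := congrArg (eval ![1, t]) heq
      rw [ha, hb] at h1
      simp [formB, ← hz, ← hw] at h1
      linear_combination h1
    obtain ⟨e1, e2, e3, e4, e5, e6⟩ := coeffs_zero key
    have ha1 : a 1 = 0 := by
      have : 3 * a 1 = 0 := by linear_combination -e1
      exact (mul_eq_zero.mp this).resolve_left h3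
    rw [ha1] at e2 e3 e4 e5
    refine ⟨(a 2, b 1, b 2, b 3), ⟨?_, ?_, ?_, ?_, ?_⟩, ?_⟩
    · show b 1 ^ 2 = 3 * (a 2 - 1)
      linear_combination e2
    · show b 1 * b 2 = 0
      have : 2 * (b 1 * b 2) = 0 := by linear_combination e3
      exact (mul_eq_zero.mp this).resolve_left h2
    · show b 2 ^ 2 + 2 * (b 1 * b 3) = 3 * a 2 ^ 2 - 3 + β
      linear_combination e4
    · show b 2 * b 3 = 0
      have : 2 * (b 2 * b 3) = 0 := by linear_combination e5
      exact (mul_eq_zero.mp this).resolve_left h2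
    · show b 3 ^ 2 = a 2 ^ 3 - 1
      linear_combination e6
    · rw [ha, hb, lineOf]
      simp only [← hz, ← hw, ha1]
      ext1
      · simp
      · simp
  · rintro ⟨⟨e, u, v, s⟩, ⟨e1, e2, e3, e4, e5⟩, hL⟩
    simp only at e1 e2 e3 e4 e5
    rw [lineOf] at hL
    simp only [Prod.mk.injEq] at hL
    obtain ⟨hq, hc⟩ := hL
    have f1 := congrArg (C : K → MvPolynomial (Fin 2) K) e1
    have f2 := congrArg (C : K → MvPolynomial (Fin 2) K) e2
    have f3 := congrArg (C : K → MvPolynomial (Fin 2) K) e3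
    have f4 := congrArg (C : K → MvPolynomial (Fin 2) K) e4
    have f5 := congrArg (C : K → MvPolynomial (Fin 2) K) e5
    simp only [map_add, map_sub, map_mul, map_pow, map_ofNat, map_zero, map_one] at f1 f2 f3 f4 f5
    refine ⟨⟨?_, ?_, ?_⟩, ?_, ?_⟩
    · show q.IsHomogeneous 2
      rw [← hq]
      exact ((isHomogeneous_X _ _).pow 2).add (((isHomogeneous_X _ _).pow 2).C_mul _)
    · show c.IsHomogeneous 3
      rw [← hc]
      refine (IsHomogeneous.add ?_ ?_).add ?_
      · exact (((isHomogeneous_X _ _).pow 2).mul (isHomogeneous_X _ _)).C_mul _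
      · exact ((isHomogeneous_X _ _).mul ((isHomogeneous_X _ _).pow 2)).C_mul _
      · exact ((isHomogeneous_X _ _).pow 3).C_mul _
    · show c ^ 2 = q ^ 3 + 0 * q + formB β
      rw [← hq, ← hc, formB]
      linear_combination (X 0 ^ 4 * X 1 ^ 2) * f1 + 2 * (X 0 ^ 3 * X 1 ^ 3) * f2
        + (X 0 ^ 2 * X 1 ^ 4) * f3 + 2 * (X 0 * X 1 ^ 5) * f4 + (X 1 ^ 6) * f5
    · show (![1, 0, 1, 0] : Fin 4 → K) 2 = eval ![1, 0] q
      rw [← hq]
      simp
    · show (![1, 0, 1, 0] : Fin 4 → K) 3 = eval ![1, 0] c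
      rw [← hc]
      simp

/-- the resolvent of degree eight -/
noncomputable def resolvent (β : K) : Polynomial K :=
  Polynomial.X ^ 8 - Polynomial.C (18 * β) * Polynomial.X ^ 4
    - Polynomial.C (108 * β) * Polynomial.X ^ 2 - Polynomial.C (27 * β ^ 2)

lemma resolvent_natDegree (β : K) : (resolvent β).natDegree = 8 := by
  unfold resolvent
  compute_degree!

lemma resolvent_card [IsAlgClosed K] (h2 : (2 : K) ≠ 0) (h3 : (3 : K) ≠ 0) {β : K}
    (hβ : β ≠ 0) (hβ' : 4 * β ≠ 27) : {u : K | (resolvent β).eval u = 0}.ncard = 8 := by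
  classical
  have hsep : (resolvent β).Separable := by
    rw [Polynomial.Separable]
    refine (Polynomial.isCoprime_iff_aeval_ne_zero_of_isAlgClosed K K _ _).mpr fun x => ?_
    by_contra hcon
    push Not at hcon
    obtain ⟨hc1, hc2⟩ := hcon
    simp [resolvent] at hc1
    simp [resolvent, Polynomial.derivative_pow] at hc2
    have hx : x ≠ 0 := by
      rintro rfl
      have : 3 * (3 * (3 * (β * β))) = 0 := by linear_combination -hc1
      exact mul_ne_zero h3 (mul_ne_zero h3 (mul_ne_zero h3 (mul_ne_zero hβ hβ))) this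
    have k1 : x ^ 6 - 9 * β * x ^ 2 - 27 * β = 0 := by
      have : (2 * (2 * (2 * x))) * (x ^ 6 - 9 * β * x ^ 2 - 27 * β) = 0 := by
        linear_combination hc2
      exact (mul_eq_zero.mp this).resolve_left
        (mul_ne_zero h2 (mul_ne_zero h2 (mul_ne_zero h2 hx)))
    have k2 : x ^ 4 + 9 * x ^ 2 + 3 * β = 0 := by
      have : (3 * (3 * β)) * (x ^ 4 + 9 * x ^ 2 + 3 * β) = 0 := by
        linear_combination x ^ 2 * k1 - hc1
      exact (mul_eq_zero.mp this).resolve_left (mul_ne_zero h3 (mul_ne_zero h3 hβ))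
    have k3 : (3 * (x * x)) * (4 * β - 27) = 0 := by
      linear_combination (x ^ 2 - 9) * k2 - k1
    have := (mul_eq_zero.mp k3).resolve_left (mul_ne_zero h3 (mul_ne_zero hx hx))
    exact hβ' (sub_eq_zero.mp this)
  have hne : resolvent β ≠ 0 := by
    intro h
    have := resolvent_natDegree β
    rw [h, Polynomial.natDegree_zero] at this
    omega
  have hset : {u : K | (resolvent β).eval u = 0} = ((resolvent β).roots.toFinset : Set K) := by
    ext u
    simp [hne]
  rw [hset, Set.ncard_coe_finset, Multiset.toFinset_card_of_nodup (Polynomial.nodup_roots hsep),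
    ← resolvent_natDegree β]
  exact (Polynomial.splits_iff_card_roots.mp (IsAlgClosed.splits _))

lemma dataSet_ncard [IsAlgClosed K] (h2 : (2 : K) ≠ 0) (h3 : (3 : K) ≠ 0) {β : K}
    (hβ : β ≠ 0) (hβ' : 4 * β ≠ 27) : (dataSet β).ncard = 10 := by
  classical
  obtain ⟨r, hr⟩ := IsAlgClosed.exists_pow_nat_eq β (n := 2) (by norm_num)
  have hr0 : r ≠ 0 := by
    rintro rfl
    apply hβ
    rw [← hr]
    ring
  let f : K → K × K × K × K := fun u => (1 + u ^ 2 / 3, u, 0, (u ^ 4 + 6 * u ^ 2 + 3 * β) / (6 * u))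
  have h6 : (6 : K) ≠ 0 := by
    have : (6 : K) = 2 * 3 := by norm_num
    rw [this]
    exact mul_ne_zero h2 h3
  have hf : Function.Injective f := by
    intro u u' h
    exact congrArg (fun t => t.2.1) h
  have hres : ∀ u : K, (resolvent β).eval u
      = u ^ 8 - 18 * β * u ^ 4 - 108 * β * u ^ 2 - 27 * β ^ 2 := by
    intro u
    simp [resolvent]
  have hu0 : ∀ u : K, (resolvent β).eval u = 0 → u ≠ 0 := by
    rintro u hu rfl
    rw [hres] at hu
    have : 3 * (3 * (3 * (β * β))) = 0 := by linear_combination -hu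
    exact mul_ne_zero h3 (mul_ne_zero h3 (mul_ne_zero h3 (mul_ne_zero hβ hβ))) this
  have hunion : dataSet β = f '' {u : K | (resolvent β).eval u = 0}
      ∪ {(1, 0, r, 0), (1, 0, -r, 0)} := by
    ext ⟨e, u, v, s⟩
    constructor
    · rintro ⟨e1, e2, e3, e4, e5⟩
      simp only at e1 e2 e3 e4 e5
      by_cases hv : v = 0
      · left
        subst hv
        have hu : u ≠ 0 := by
          rintro rfl
          have he : 3 * (e - 1) = 0 := by linear_combination -e1
          have he' : e = 1 := sub_eq_zero.mp ((mul_eq_zero.mp he).resolve_left h3)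
          rw [he'] at e3
          apply hβ
          linear_combination -e3
        have he : e = 1 + u ^ 2 / 3 := by
          field_simp
          linear_combination -e1
        have hs : s = (u ^ 4 + 6 * u ^ 2 + 3 * β) / (6 * u) := by
          rw [he] at e3
          field_simp
          field_simp at e3
          linear_combination e3
        refine ⟨u, ?_, ?_⟩
        · show (resolvent β).eval u = 0
          rw [hres]
          rw [he, hs] at e5
          field_simp at e5
          have h9 : 3 * (3 * (u ^ 8 - 18 * β * u ^ 4 - 108 * β * u ^ 2 - 27 * β ^ 2)) = 0 := by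
            linear_combination -e5
          exact (mul_eq_zero.mp ((mul_eq_zero.mp h9).resolve_left h3)).resolve_left h3
        · simp only [f]
          rw [he, hs]
      · right
        have hu : u = 0 := (mul_eq_zero.mp e2).resolve_right hv
        have hs : s = 0 := (mul_eq_zero.mp e4).resolve_left hv
        subst hu
        subst hs
        have he : 3 * (e - 1) = 0 := by linear_combination -e1
        have he' : e = 1 := sub_eq_zero.mp ((mul_eq_zero.mp he).resolve_left h3)
        subst he'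
        have hv2 : (v - r) * (v + r) = 0 := by linear_combination e3 - hr
        rcases mul_eq_zero.mp hv2 with h | h
        · rw [sub_eq_zero.mp h]
          simp
        · rw [eq_neg_of_add_eq_zero_left h]
          simp
    · rintro (⟨u', hu', hL⟩ | h)
      · have hu := hu0 u' hu'
        change (resolvent β).eval u' = 0 at hu'
        rw [hres] at hu'
        rw [← hL]
        refine ⟨?_, ?_, ?_, ?_, ?_⟩
        · simp only [f]
          field_simp
          ring
        · simp [f]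
        · simp only [f]
          field_simp
          ring
        · simp [f]
        · simp only [f]
          field_simp
          linear_combination -9 * hu'
      · simp only [Set.mem_insert_iff, Set.mem_singleton_iff] at h
        rcases h with h | h
        · rw [h]
          refine ⟨?_, ?_, ?_, ?_, ?_⟩ <;> simp [hr]
        · rw [h]
          refine ⟨?_, ?_, ?_, ?_, ?_⟩ <;> simp [hr]
  have hdisj : Disjoint (f '' {u : K | (resolvent β).eval u = 0})
      ({(1, 0, r, 0), (1, 0, -r, 0)} : Set (K × K × K × K)) := by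
    rw [Set.disjoint_left]
    rintro _ ⟨u, hu, rfl⟩ h
    have hu' := hu0 u hu
    simp [f] at h
    rcases h with h | h
    · exact hu' h.2.1
    · exact hu' h.2.1
  have hfin1 : (f '' {u : K | (resolvent β).eval u = 0}).Finite := by
    apply Set.Finite.image
    apply Set.finite_of_ncard_ne_zero
    rw [resolvent_card h2 h3 hβ hβ']
    norm_num
  rw [hunion, Set.ncard_union_eq hdisj hfin1 (Set.toFinite _), Set.ncard_image_of_injective _ hf,
    resolvent_card h2 h3 hβ hβ', Set.ncard_pair]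
  intro h
  have h1 : r = -r := congrArg (fun t => t.2.2.1) h
  have h4 : 2 * r = 0 := by linear_combination h1
  exact mul_ne_zero h2 hr0 h4

lemma eval_sextic (β : K) (P : Fin 4 → K) : eval P (sextic 0 (formB β))
    = P 3 ^ 2 - (P 2 ^ 3 + (-(P 0 ^ 2 + P 1 ^ 2) ^ 3 + β * (P 0 ^ 2 * P 1 ^ 4))) := by
  simp [sextic, formB]

lemma sextic_eq (β : K) : sextic 0 (formB β) = X 3 ^ 2 - (X 2 ^ 3
    + (-(X 0 ^ 2 + X 1 ^ 2) ^ 3 + C β * (X 0 ^ 2 * X 1 ^ 4))) := by
  simp [sextic, formB, algebraMap_eq]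

lemma smooth (h2 : (2 : K) ≠ 0) (h3 : (3 : K) ≠ 0) {β : K} (hβ : β ≠ 0) (hβ' : 4 * β ≠ 27)
    (P : Fin 4 → K) (hP : P ≠ 0) (_ : eval P (sextic 0 (formB β)) = 0) :
    ∃ i, eval P (pderiv i (sextic 0 (formB β))) ≠ 0 := by
  by_contra hcon
  push Not at hcon
  have d0 := hcon 0
  have d1 := hcon 1
  have d2 := hcon 2
  have d3 := hcon 3
  rw [sextic_eq] at d0 d1 d2 d3
  simp [pderiv_X] at d0 d1 d2 d3
  have hz : P 2 = 0 := d2.resolve_left h3
  have hw : P 3 = 0 := d3.resolve_left h2
  have key : P 0 = 0 ∧ P 1 = 0 := by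
    by_cases hx : P 0 = 0
    · refine ⟨hx, ?_⟩
      rw [hx] at d1
      have : (3 * 2) * P 1 ^ 5 = 0 := by linear_combination d1
      exact pow_eq_zero_iff (by norm_num) |>.mp
        ((mul_eq_zero.mp this).resolve_left (mul_ne_zero h3 h2))
    · exfalso
      have f0 : 3 * (P 0 ^ 2 + P 1 ^ 2) ^ 2 - β * P 1 ^ 4 = 0 := by
        have : (2 * P 0) * (3 * (P 0 ^ 2 + P 1 ^ 2) ^ 2 - β * P 1 ^ 4) = 0 := by
          linear_combination d0
        exact (mul_eq_zero.mp this).resolve_left (mul_ne_zero h2 hx)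
      by_cases hy : P 1 = 0
      · rw [hy] at f0
        have : 3 * (P 0 * P 0 * (P 0 * P 0)) = 0 := by linear_combination f0
        exact mul_ne_zero h3 (mul_ne_zero (mul_ne_zero hx hx) (mul_ne_zero hx hx)) this
      · have f1 : 3 * (P 0 ^ 2 + P 1 ^ 2) ^ 2 - 2 * β * P 0 ^ 2 * P 1 ^ 2 = 0 := by
          have : (2 * P 1) * (3 * (P 0 ^ 2 + P 1 ^ 2) ^ 2 - 2 * β * P 0 ^ 2 * P 1 ^ 2) = 0 := by
            linear_combination d1
          exact (mul_eq_zero.mp this).resolve_left (mul_ne_zero h2 hy)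
        have f2 : P 1 ^ 2 - 2 * P 0 ^ 2 = 0 := by
          have : (β * (P 1 * P 1)) * (P 1 ^ 2 - 2 * P 0 ^ 2) = 0 := by
            linear_combination f1 - f0
          exact (mul_eq_zero.mp this).resolve_left (mul_ne_zero hβ (mul_ne_zero hy hy))
        have f3 : (P 0 * P 0 * (P 0 * P 0)) * (4 * β - 27) = 0 := by
          linear_combination -f0 + (3 * P 1 ^ 2 + 12 * P 0 ^ 2 - β * P 1 ^ 2 - 2 * β * P 0 ^ 2) * f2
        have := (mul_eq_zero.mp f3).resolve_left
          (mul_ne_zero (mul_ne_zero hx hx) (mul_ne_zero hx hx))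
        exact hβ' (sub_eq_zero.mp this)
  apply hP
  funext i
  fin_cases i
  · exact key.1
  · exact key.2
  · exact hz
  · exact hw

lemma excThrough_rotate {a : K} (ha : a ^ 3 = 1) (B : MvPolynomial (Fin 2) K) :
    excThrough 0 B ![1, 0, a, 0]
      = (fun L : MvPolynomial (Fin 2) K × MvPolynomial (Fin 2) K => (C a * L.1, L.2)) ''
        excThrough 0 B ![1, 0, 1, 0] := by
  have hC : (C a : MvPolynomial (Fin 2) K) ^ 3 = 1 := by rw [← C_pow, ha, C_1]
  ext ⟨q, c⟩
  constructor
  · rintro ⟨⟨h1, h2, h3⟩, h4, h5⟩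
    simp only at h1 h2 h3
    simp at h4 h5
    refine ⟨(C a ^ 2 * q, c), ⟨⟨?_, h2, ?_⟩, ?_, ?_⟩, ?_⟩
    · show (C a ^ 2 * q).IsHomogeneous 2
      rw [← C_pow]
      exact h1.C_mul _
    · show c ^ 2 = (C a ^ 2 * q) ^ 3 + 0 * (C a ^ 2 * q) + B
      rw [h3]
      linear_combination (-(q ^ 3) * (C a ^ 3 + 1)) * hC
    · simp [← h4]
      linear_combination -ha
    · simp [← h5]
    · show (C a * (C a ^ 2 * q), c) = (q, c)
      rw [show C a * (C a ^ 2 * q) = C a ^ 3 * q by ring, hC, one_mul]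
  · rintro ⟨⟨q', c'⟩, ⟨⟨h1, h2, h3⟩, h4, h5⟩, hL⟩
    simp only [Prod.mk.injEq] at hL
    obtain ⟨hq, hc⟩ := hL
    simp only at h1 h2 h3
    simp at h4 h5
    subst hq
    subst hc
    refine ⟨⟨h1.C_mul _, h2, ?_⟩, ?_, ?_⟩
    · show c' ^ 2 = (C a * q') ^ 3 + 0 * (C a * q') + B
      rw [h3]
      linear_combination -(q' ^ 3) * hC
    · simp [← h4]
    · simp [← h5]

lemma genEckardt [IsAlgClosed K] (h2 : (2 : K) ≠ 0) (h3 : (3 : K) ≠ 0)
    {β : K} (hβ : β ≠ 0) (hβ' : 4 * β ≠ 27) {a : K} (ha : a ^ 3 = 1) :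
    IsGenEckardt 0 (formB β) ![1, 0, a, 0] := by
  have : Infinite K := IsAlgClosed.instInfinite
  have ha0 : a ≠ 0 := by
    rintro rfl
    norm_num at ha
  refine ⟨?_, ?_, ?_⟩
  · intro h
    have := congrFun h 0
    simp at this
  · rw [eval_sextic]
    simp
    linear_combination -ha
  · rw [excThrough_rotate ha, Set.ncard_image_of_injective, excThrough_eq h2 h3 β,
      Set.ncard_image_of_injective _ (lineOf_injective h2), dataSet_ncard h2 h3 hβ hβ']
    rintro ⟨q, c⟩ ⟨q', c'⟩ h
    simp only [Prod.mk.injEq] at h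
    obtain ⟨h4, h5⟩ := h
    subst h5
    have hCa : (C a : MvPolynomial (Fin 2) K) ≠ 0 := by
      rw [Ne, C_eq_zero]
      exact ha0
    rw [mul_left_cancel₀ hCa h4]

lemma samePoint_eq {a b : K} (h : SamePoint ![1, 0, a, 0] ![1, 0, b, 0]) : a = b := by
  obtain ⟨t, _, ht⟩ := h
  have h0 := congrFun ht 0
  have h2 := congrFun ht 2
  simp at h0 h2
  rw [← h0] at h2
  rw [h2]
  ring

/-- **Del Pezzo surfaces of degree one with at least three generalized Eckardt points.**

Let `K` be an algebraically closed field with `2 ≠ 0` and `3 ≠ 0`, and let `β ≠ 0`, `4 β ≠ 27`.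
The sextic `w² = z³ - (x² + y²)³ + β x² y⁴` in `ℙ(1,1,2,3)` is a del Pezzo surface of degree one,
and it has three distinct generalized Eckardt points, all on the ramification curve `w = 0`. -/
theorem result (K : Type*) [Field K] [IsAlgClosed K] (h2 : (2 : K) ≠ 0) (h3 : (3 : K) ≠ 0)
    (β : K) (hβ : β ≠ 0) (hβ' : 4 * β ≠ 27) :
    IsDelPezzoOne 0 (formB β) ∧ ∃ P : Fin 3 → Fin 4 → K,
      (∀ i, IsGenEckardt 0 (formB β) (P i) ∧ P i 3 = 0) ∧
        ∀ i j, i ≠ j → ¬ SamePoint (P i) (P j) := by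
  refine ⟨⟨isHomogeneous_zero _ _ _, formB_hom β, smooth h2 h3 hβ hβ'⟩, ?_⟩
  obtain ⟨ζ, hζ⟩ : ∃ ζ : K, ζ ^ 2 + ζ + 1 = 0 := by
    obtain ⟨ζ, hζ⟩ := IsAlgClosed.exists_root
      (Polynomial.X ^ 2 + Polynomial.X + 1 : Polynomial K) (by
        have : (Polynomial.X ^ 2 + Polynomial.X + 1 : Polynomial K).degree = 2 := by
          compute_degree!
        rw [this]
        norm_num)
    exact ⟨ζ, by simpa using hζ⟩
  have h1 : ζ ^ 3 = 1 := by linear_combination (ζ - 1) * hζ
  have n1 : (1 : K) ≠ ζ := by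
    rintro rfl
    apply h3
    linear_combination hζ
  have n2 : (1 : K) ≠ ζ ^ 2 := by
    intro h
    apply h3
    have h5 : ζ = -2 := by linear_combination hζ + h
    rw [h5] at h
    linear_combination -h
  have n3 : ζ ≠ ζ ^ 2 := by
    intro h
    have hζ0 : ζ ≠ 0 := by
      rintro rfl
      norm_num at hζ
    apply n1
    have : ζ * (1 - ζ) = 0 := by linear_combination h
    exact sub_eq_zero.mp ((mul_eq_zero.mp this).resolve_left hζ0)
  refine ⟨![![1, 0, 1, 0], ![1, 0, ζ, 0], ![1, 0, ζ ^ 2, 0]], fun i => ?_, fun i j hij h => ?_⟩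
  · fin_cases i
    · exact ⟨genEckardt h2 h3 hβ hβ' (by norm_num), rfl⟩
    · exact ⟨genEckardt h2 h3 hβ hβ' h1, rfl⟩
    · exact ⟨genEckardt h2 h3 hβ hβ' (by rw [← pow_mul, mul_comm, pow_mul, h1, one_pow]), rfl⟩
  · fin_cases i <;> fin_cases j
    · exact hij rfl
    · exact n1 (samePoint_eq h)
    · exact n2 (samePoint_eq h)
    · exact n1 (samePoint_eq h).symm
    · exact hij rfl
    · exact n3 (samePoint_eq h)
    · exact n2 (samePoint_eq h).symm
    · exact n3 (samePoint_eq h).symm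
    · exact hij rfl

end Pool.H54.MV.ThreeEckardt
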